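import Mathlib

set_option autoImplicit false
set_option maxHeartbeats 400000

namespace Pool.Agent.Results.MP_1a49c3_al.SeventhClosure

open Polynomial

/-- Zariski closure of a set of `3 × 3` matrices. -/
def zcl {K : Type} [Field K] (S : Set (Matrix (Fin 3) (Fin 3) K)) : Set (Matrix (Fin 3) (Fin 3) K) :=
  {A | ∀ F : MvPolynomial (Fin 3 × Fin 3) K,
    (∀ B ∈ S, MvPolynomial.eval (fun ij => B ij.1 ij.2) F = 0) →
      MvPolynomial.eval (fun ij => A ij.1 ij.2) F = 0}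

/-- The `3`-scalar matrices. -/
def V3 (K : Type) [Field K] : Set (Matrix (Fin 3) (Fin 3) K) := {A | ∃ c : K, A.charpoly = X ^ 3 - C c}

lemma sub_zcl {K : Type} [Field K] (S : Set (Matrix (Fin 3) (Fin 3) K)) : S ⊆ zcl S :=
  fun A hA _ h => h A hA

lemma v3 {K : Type} [Field K] (A : Matrix (Fin 3) (Fin 3) K) (h : A ∈ V3 K) :
    A 0 0 + A 1 1 + A 2 2 = 0 ∧
      A 0 0 * A 1 1 - A 0 1 * A 1 0 + A 0 0 * A 2 2 - A 0 2 * A 2 0 + A 1 1 * A 2 2 - A 1 2 * A 2 1 = 0 := by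
  obtain ⟨c, hc⟩ := h
  have h1 : A.charpoly = X ^ 3 - C (A 0 0 + A 1 1 + A 2 2) * X ^ 2 +
      C (A 0 0 * A 1 1 - A 0 1 * A 1 0 + A 0 0 * A 2 2 - A 0 2 * A 2 0 + A 1 1 * A 2 2 -
        A 1 2 * A 2 1) * X - C A.det := by
    simp [Matrix.charpoly, Matrix.det_fin_three]
    ring
  rw [h1] at hc
  have h2 := congrArg (fun f => f.coeff 2) hc
  have h3 := congrArg (fun f => f.coeff 1) hc
  simp only [coeff_sub, coeff_add, coeff_X_pow, coeff_C_mul, coeff_X, coeff_C] at h2 h3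
  norm_num at h2 h3
  exact ⟨by linear_combination -h2, by linear_combination h3⟩

lemma key {K : Type} [Field K] (S : Set (Matrix (Fin 3) (Fin 3) K)) (A : Matrix (Fin 3) (Fin 3) K)
    (hA : A ∈ S) (h1 : A 0 0 + A 1 1 + A 2 2 ≠ 0)
    (h2 : (A 0 0 + A 1 1 + A 2 2) ^ 2 - 3 * (A 0 0 * A 1 1 - A 0 1 * A 1 0 + A 0 0 * A 2 2 -
      A 0 2 * A 2 0 + A 1 1 * A 2 2 - A 1 2 * A 2 1) ≠ 0)
    (F : MvPolynomial (Fin 3 × Fin 3) K)
    (h3 : ∀ B ∈ S, MvPolynomial.eval (fun ij => B ij.1 ij.2) F = 0)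
    (h4 : MvPolynomial.eval (fun ij => (!![1, 0, 0; 0, 0, 0; 0, 0, 0] : Matrix (Fin 3) (Fin 3) K)
      ij.1 ij.2) F ≠ 0) :
    zcl S ≠ {0} ∧ zcl S ≠ {A | ∃ c : K, A = c • 1} ∧ zcl S ≠ V3 K ∧ zcl S ≠ {A | A.trace = 0} ∧
      zcl S ≠ zcl {A | ∃ B ∈ V3 K, ∃ c : K, A = B + c • 1} ∧ zcl S ≠ Set.univ := by
  have h0 := sub_zcl S hA
  refine ⟨fun h => ?_, fun h => ?_, fun h => ?_, fun h => ?_, fun h => ?_, fun h => ?_⟩
  · rw [h] at h0
    obtain rfl : A = 0 := h0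
    simp at h1
  · rw [h] at h0
    obtain ⟨c, rfl⟩ := h0
    apply h2
    simp
    ring
  · rw [h] at h0
    exact h1 (v3 A h0).1
  · rw [h] at h0
    exact h1 (by simpa [Matrix.trace_fin_three] using h0)
  · rw [h] at h0
    apply h2
    open MvPolynomial in
    have := h0 ((X (0, 0) + X (1, 1) + X (2, 2)) ^ 2 - 3 * (X (0, 0) * X (1, 1) -
      X (0, 1) * X (1, 0) + X (0, 0) * X (2, 2) - X (0, 2) * X (2, 0) + X (1, 1) * X (2, 2) -
      X (1, 2) * X (2, 1))) (by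
        rintro _ ⟨B, hB, c, rfl⟩
        obtain ⟨h5, h6⟩ := v3 B hB
        simp
        linear_combination (B 0 0 + B 1 1 + B 2 2) * h5 - 3 * h6)
    simpa using this
  · exact h4 ((h ▸ Set.mem_univ _ : _ ∈ zcl S) F h3)

theorem result (K : Type) [Field K] [IsAlgClosed K] :
    ∃ (m d : ℕ) (p : FreeAlgebra K (Fin m)), 1 ≤ d ∧
      p ∈ Submodule.span K (Set.range (FreeAlgebra.ι K)) ^ d ∧
      ∀ S : Set (Matrix (Fin 3) (Fin 3) K),
        S = Set.range (fun A : Fin m → Matrix (Fin 3) (Fin 3) K => FreeAlgebra.lift K A p) →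
        zcl S ≠ {0} ∧ zcl S ≠ {A | ∃ c : K, A = c • 1} ∧ zcl S ≠ V3 K ∧
          zcl S ≠ {A | A.trace = 0} ∧ zcl S ≠ zcl {A | ∃ B ∈ V3 K, ∃ c : K, A = B + c • 1} ∧
          zcl S ≠ Set.univ := by
  obtain ⟨q, hq⟩ : ∃ q : FreeAlgebra K (Fin 2), q = FreeAlgebra.ι K 0 * FreeAlgebra.ι K 1 -
    FreeAlgebra.ι K 1 * FreeAlgebra.ι K 0 := ⟨_, rfl⟩
  have h1 : q ∈ Submodule.span K (Set.range (FreeAlgebra.ι K)) ^ 2 := by
    have : ∀ i : Fin 2, FreeAlgebra.ι K i ∈ Submodule.span K (Set.range (FreeAlgebra.ι K)) :=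
      fun i => Submodule.subset_span ⟨i, rfl⟩
    rw [hq, pow_two]
    exact sub_mem (Submodule.mul_mem_mul (this 0) (this 1)) (Submodule.mul_mem_mul (this 1) (this 0))
  have h2 : ∀ n, q ^ n ∈ Submodule.span K (Set.range (FreeAlgebra.ι K)) ^ (2 * n) := fun n => by
    rw [pow_mul]
    exact Submodule.pow_mem_pow _ h1 n
  have h3 : ∀ A : Fin 2 → Matrix (Fin 3) (Fin 3) K, ∃ B : Matrix (Fin 3) (Fin 3) K,
      FreeAlgebra.lift K A q = B ∧ B 2 2 = -B 0 0 - B 1 1 := by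
    intro A
    refine ⟨_, rfl, ?_⟩
    have : (FreeAlgebra.lift K A q).trace = 0 := by
      simp [hq, Matrix.trace_mul_comm (A 0)]
    rw [Matrix.trace_fin_three] at this
    linear_combination this
  by_cases h : (2 : K) = 0
  · refine ⟨2, 2 * 3, q ^ 3, by norm_num, h2 3, ?_⟩
    rintro _ rfl
    open MvPolynomial in
    refine key _ !![-1, 1, 0; 0, -1, -1; -1, 1, -1]
      ⟨![!![0, 0, 0; 0, 0, 1; 0, 1, 0], !![0, 0, 1; 1, 0, 0; 0, 0, 1]], ?_⟩ ?_ ?_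
      ((X (0, 0) + X (1, 1) + X (2, 2)) ^ 3 - 27 * (X (0, 0) * X (1, 1) * X (2, 2) -
        X (0, 0) * X (1, 2) * X (2, 1) - X (0, 1) * X (1, 0) * X (2, 2) +
        X (0, 1) * X (1, 2) * X (2, 0) + X (0, 2) * X (1, 0) * X (2, 1) -
        X (0, 2) * X (1, 1) * X (2, 0))) ?_ (by simp)
    · simp only [hq, map_pow, map_sub, map_mul, FreeAlgebra.lift_ι_apply]
      ext i j
      fin_cases i <;> fin_cases j <;> simp [pow_succ, Matrix.mul_apply, Fin.sum_univ_three]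
    · intro h4
      simp at h4
      exact one_ne_zero (by linear_combination h4 + 2 * h : (1 : K) = 0)
    · intro h4
      simp at h4
      exact one_ne_zero (by linear_combination h4 + 2 * h : (1 : K) = 0)
    · rintro _ ⟨A, rfl⟩
      obtain ⟨B, h4, h5⟩ := h3 A
      simp only [map_pow, h4]
      simp [pow_succ, Matrix.mul_apply, Fin.sum_univ_three, h5]
      ring
  · refine ⟨2, 2 * 2, q ^ 2, by norm_num, h2 2, ?_⟩
    rintro _ rfl
    open MvPolynomial in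
    refine key _ !![1, 0, 0; 0, 1, 0; 0, 0, 0]
      ⟨![!![0, 1, 0; 0, 0, 0; 0, 0, 0], !![0, 0, 0; 1, 0, 0; 0, 0, 0]], ?_⟩ ?_ ?_
      ((X (0, 0) + X (1, 1) + X (2, 2)) ^ 2 - 4 * (X (0, 0) * X (1, 1) -
        X (0, 1) * X (1, 0) + X (0, 0) * X (2, 2) - X (0, 2) * X (2, 0) + X (1, 1) * X (2, 2) -
        X (1, 2) * X (2, 1))) ?_ (by simp)
    · simp only [hq, map_pow, map_sub, map_mul, FreeAlgebra.lift_ι_apply]
      ext i j
      fin_cases i <;> fin_cases j <;> simp [pow_succ, Matrix.mul_apply, Fin.sum_univ_three]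
    · intro h4
      simp at h4
      exact h (by linear_combination h4)
    · intro h4
      simp at h4
      exact one_ne_zero (by linear_combination h4 : (1 : K) = 0)
    · rintro _ ⟨A, rfl⟩
      obtain ⟨B, h4, h5⟩ := h3 A
      simp only [map_pow, h4]
      simp [pow_succ, Matrix.mul_apply, Fin.sum_univ_three, h5]
      ring

end Pool.Agent.Results.MP_1a49c3_al.SeventhClosure
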